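import Pool.Agent.Helper48.OD.St

/-!
# Project OD, module L13
-/

set_option autoImplicit false

namespace Pool.Agent.Helper8.OD

open Pool.Agent.Helper43.GD Pool.Agent.Helper48.OD

private theorem part1 (hSS : StSS) (hGR : StGR) (L A : Type) [CommRing L] [Group A] (Q : Fr L A)
    (y u : Lˣ) (hC : CB L A Q) (hy : y ∈ Q.U) (hev : Ev y) (hu : (u : L) * (1 - (y : L)) = 1)
    (hM : Mr Q u = ⊤) : Gd Q y := by
  obtain ⟨m, hm⟩ := hev
  have h1 : Q.S u y := hSS L A Q y u hy hu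
  have h2 : Q.S u (y ^ m) := Q.S_pow h1 m
  rw [hm] at h2
  refine hGR L A Q y u (-1) hy hu h2 ⟨Q.neg, ?_⟩ hM
  have e : (1 : L) - (((-1 : Lˣ)) : L) = 2 := by
    rw [Units.val_neg, Units.val_one]; norm_num
  rw [e]
  exact hC.in2

theorem hL13 (hSS : StSS) (hGP : StGP) (hGR : StGR) : Pool.Agent.Helper48.OD.StL13 := by
  refine ⟨fun L A _ _ Q y u hC hy hev hu hM => part1 hSS hGR L A Q y u hC hy hev hu hM, ?_⟩
  intro L A _ _ Q y t hC hy hev ht hgn hyt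
  obtain ⟨c, hc⟩ := hev.isUnit hC.two
  have hu : ((c⁻¹ : Lˣ) : L) * (1 - (y : L)) = 1 := by
    rw [← hc, Units.inv_mul]
  have h1 : (t : L) ∈ Mr Q c⁻¹ := hGP L A Q y c⁻¹ t hC.fin hy hu ht hyt
  exact part1 hSS hGR L A Q y c⁻¹ hC hy hev hu ((gn_iff (t : L)).1 hgn _ h1)

end Pool.Agent.Helper8.OD
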